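import Pool.Agent.V11288.LZ.Curve

/-!
# `L'(E, -1)` from the numbers of points of curves of genus one

Let `C` be a curve of genus one over `ℚ` (more generally, over a number field `K`), given by homogeneous equations
over `𝓞_K`, and `S` a set of primes, for example all primes of good reduction.  For `v ∈ S` let `α_{v,1}, α_{v,2}` be
the eigenvalues of Frobenius on `H^1(C) = H^1(E)`: `|α_{v,j}| = q_v^{1/2}` and
`#C(κ) = q_v^e + 1 - α_{v,1}^e - α_{v,2}^e` for the extension `κ` of degree `e` of the residue field.  Let `L(s)` be the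
Euler product of `(1 - α_{v,1} q_v^{-s})⁻¹ (1 - α_{v,2} q_v^{-s})⁻¹`, `v ∈ S`, for `Re s > 3/2`, meromorphic at the
points of the real interval `[-1, 3/2]` (for `K = ℚ` it is entire up to finitely many factors).  The factors of
`L(E, s)` at the other primes change the leading coefficient at `s = -1` only by a rational number `≠ 0`.  For real
`γ ≥ 0` and `Y > 1` let, with `u = k log q_v / log Y`,

`W_γ(Y) = ∑_{v ∈ S} ∑_{k ≥ 1} q_v^k (q_v^k + 1 - #C(κ_{v,k})) / k · e^{iγu} / Γ(1 + u)`,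

`κ_{v,k}` the extension of degree `k` of the residue field, `V_γ(Y)` the same sum with `cos(γu)` instead of
`e^{iγu}`, and `Λ_γ = ∫_0^∞ (e^{-t} - e^{iγt}/Γ(1+t)) dt/t`.  Let `L^*(-1)` be the leading coefficient of `L` at `-1`
(so `L^*(-1) = L'(-1)` for `K = ℚ`, where the order is `1`).

1. For `γ > π/2`: `W_γ(Y) = log |L^*(-1)| - iπz - r (log log Y - Λ_γ) + O(1/log Y)`, where `r` is the order of `L` at
   `-1` and `z` the number of the zeros minus the number of the poles of `L` on the real half line `(-1, ∞)`.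

2. For `γ > π/2` and `r ∈ ℤ`: `ord_{s=-1} L = r` iff `V_γ(Y) = -r log log Y + O(1)`.

3. For `γ > π/2`, `r ∈ ℤ` and `D ≠ 0`: `ord_{s=-1} L = r` and `L^*(-1) ∈ ℚ^* D` iff
   `(log Y)^r exp W_γ(Y) → e^{rΛ_γ} x D` for some `x ∈ ℚ^*`.  With `r = 1` and `D = Π(α)`: the number `Π(α)` is in
   `ℚ^* L'(E, -1)` (the statement of Q1 for `C` and `α`) iff `(log Y) exp W_γ(Y) → e^{Λ_γ} x Π(α)` for some `x ∈ ℚ^*`.

4. For `0 ≤ γ < π/2` and `r ∈ ℤ`: `V_γ(Y) = -r log log Y + O(1)` iff `ord_{s=-1} L = r` and `L` has neither zeros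
   nor poles on the real half line `(-1, ∞)`.

Proof.  `Pool.Agent.V11288.LZ`; for smooth projective varieties see `MP_29b22a_nt.LeadingTermsByPoints`.
-/

set_option autoImplicit false

namespace Pool.Agent.Results.MP_4132b3_nt.DerivativeByPoints

open Filter Topology Set NumberField IsDedekindDomain

variable {K : Type} [Field K] [NumberField K] {n N : ℕ}

/-- The norm `q_v`. -/
noncomputable def nrm (v : HeightOneSpectrum (𝓞 K)) : ℕ := Ideal.absNorm v.asIdeal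

/-- The set `X` of homogeneous polynomials over `𝓞_K` in `n` variables gives a projective curve over
`K`.  For a field `κ` with `q` elements and a homomorphism `𝓞_K → κ` this is `(q - 1)` times the number
of the points of `X` with coordinates in `κ`: the number of the nonzero solutions of the equations. -/
noncomputable def cone (X : Set (MvPolynomial (Fin n) (𝓞 K))) {κ : Type} [Field κ]
    (φ : 𝓞 K →+* κ) : ℕ :=
  Nat.card {u : Fin n → κ // u ≠ 0 ∧ ∀ f ∈ X, MvPolynomial.eval₂ φ u f = 0}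

/-- `α_1, …, α_N` are the eigenvalues of the geometric Frobenius at the prime `v` on `H^1(C)`, for a
projective curve `C` (`N = 2g`): they have the absolute value `q_v^{1/2}`, and for every finite extension
`κ` of the residue field of `v`, of degree `e`, the number of the points of `C` with coordinates in `κ`
is `q_v^e + 1 - ∑_j α_j^e`. -/
def IsFrobenius (C : Set (MvPolynomial (Fin n) (𝓞 K))) (v : HeightOneSpectrum (𝓞 K))
    (α : Fin N → ℂ) : Prop :=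
  (∀ j, ‖α j‖ = (nrm v : ℝ) ^ (1 / 2 : ℝ)) ∧
    ∀ (κ : Type) [Field κ] [Finite κ] (φ : 𝓞 K →+* κ) (e : ℕ), RingHom.ker φ = v.asIdeal →
      Nat.card κ = nrm v ^ e →
      (cone C φ : ℂ) = ((nrm v : ℂ) ^ e - 1) * ((nrm v : ℂ) ^ e + 1 - ∑ j, α j ^ e)

variable {S : Set (HeightOneSpectrum (𝓞 K))}

/-- The Euler factor `∏_j (1 - α_{v,j} q_v^{-s})⁻¹`. -/
noncomputable def factor (α : S → Fin N → ℂ) (v : S) (s : ℂ) : ℂ :=
  ∏ j, (1 - α v j * (nrm v.1 : ℂ) ^ (-s))⁻¹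

/-- `L` is the Euler product for `Re s > 3/2` and meromorphic at the points of the real interval
`[m, 3/2]`. -/
structure IsLFunction (α : S → Fin N → ℂ) (m : ℤ) (L : ℂ → ℂ) : Prop where
  mero : ∀ x ∈ Icc (m : ℝ) (3 / 2), MeromorphicAt L (x : ℂ)
  prod : ∀ s : ℂ, 3 / 2 < s.re → L s = ∏' v : S, factor α v s

/-- The term of `W_γ(Y)` at `(v, k)`. -/
noncomputable def term (α : S → Fin N → ℂ) (m : ℤ) (γ Y : ℝ) (v : S) (k : ℕ) : ℂ :=
  (∑ j, α v j ^ k) / (k * (nrm v.1 : ℂ) ^ (k * m)) *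
    (Complex.exp ((γ * (k * Real.log (nrm v.1) / Real.log Y) : ℝ) * Complex.I) /
      (Real.Gamma (1 + k * Real.log (nrm v.1) / Real.log Y) : ℂ))

/-- `W_γ(Y)`, the sum over `v ∈ S` and `k ≥ 1` (here `k = x.2 + 1`). -/
noncomputable def W (α : S → Fin N → ℂ) (m : ℤ) (γ Y : ℝ) : ℂ :=
  ∑' x : S × ℕ, term α m γ Y x.1 (x.2 + 1)

/-- `V_γ(Y)`: the sum of the real parts of the terms (the power sums `∑_j α_{v,j}^k` are real numbers, so
these are the terms with `cos(γu)` instead of `e^{iγu}`). -/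
noncomputable def V (α : S → Fin N → ℂ) (m : ℤ) (γ Y : ℝ) : ℝ :=
  ∑' x : S × ℕ, (term α m γ Y x.1 (x.2 + 1)).re

/-- `Λ_γ = ∫_0^∞ (e^{-t} - e^{iγt} / Γ(1 + t)) dt / t`. -/
noncomputable def Lam (γ : ℝ) : ℂ := ∫ t in Ioi (0 : ℝ),
  (Complex.exp (-(t : ℂ)) - Complex.exp ((γ * t : ℝ) * Complex.I) * ((Real.Gamma (1 + t))⁻¹ : ℝ)) / t

/-- The order of `L` at the real point `x` is `r`. -/
def OrderAt (L : ℂ → ℂ) (x : ℝ) (r : ℤ) : Prop := meromorphicOrderAt L (x : ℂ) = r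

/-- The order at `m` is `r` and the leading coefficient is `B`: `L(s)/(s - m)^r → B ≠ 0`. -/
def LeadingAt (L : ℂ → ℂ) (m r : ℤ) (B : ℂ) : Prop :=
  B ≠ 0 ∧ Tendsto (fun s : ℂ => L s / (s - m) ^ r) (𝓝[≠] (m : ℂ)) (𝓝 B)

/-- The number of the zeros minus the number of the poles of `L` on the real half line `(m, ∞)`. -/
noncomputable def excess (L : ℂ → ℂ) (m : ℤ) : ℤ :=
  ∑ᶠ x ∈ Ioi (m : ℝ), (meromorphicOrderAt L (x : ℂ)).untop₀

/-- `V_γ(Y) = -r log log Y + O(1)` for `Y → ∞`. -/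
def BoundedLaw (α : S → Fin N → ℂ) (m : ℤ) (γ : ℝ) (r : ℤ) : Prop :=
  ∃ C Y₀ : ℝ, ∀ Y ≥ Y₀, |V α m γ Y + r * Real.log (Real.log Y)| ≤ C

open Pool.Agent.V11288.LZ Pool.Agent.V11288

theorem term_eq (α : S → Fin N → ℂ) (m : ℤ) (γ Y : ℝ) (x : S × ℕ) :
    tm (fun v : S => (Ideal.absNorm v.1.asIdeal : ℝ)) (fun v => Matrix.diagonal (α v)) m γ Y x =
      term α m γ Y x.1 (x.2 + 1) := by
  unfold tm term wt
  rw [trace_diagonal_pow, Real.rpow_intCast]
  have h0 : ((((Ideal.absNorm x.1.1.asIdeal : ℕ) : ℝ) ^ m : ℝ) : ℂ) ^ (x.2 + 1) =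
      (nrm x.1.1 : ℂ) ^ (((x.2 + 1 : ℕ) : ℤ) * m) := by
    push_cast
    rw [mul_comm, zpow_mul]
    norm_cast
  rw [h0]
  rfl

theorem W_eq (α : S → Fin N → ℂ) (m : ℤ) (γ Y : ℝ) :
    tot (fun v : S => (Ideal.absNorm v.1.asIdeal : ℝ)) (fun v => Matrix.diagonal (α v)) m γ Y =
      W α m γ Y :=
  tsum_congr fun x => term_eq α m γ Y x

/-- The theorem at all integers `m`. -/
theorem main (C : Set (MvPolynomial (Fin n) (𝓞 K))) (α : S → Fin N → ℂ)
    (h : ∀ v, IsFrobenius C v.1 (α v)) (m : ℤ) (L : ℂ → ℂ)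
    (hL : IsLFunction α m L) :
    (∀ γ : ℝ, Real.pi / 2 < γ → ∃ (r : ℤ) (l : ℝ), OrderAt L (m : ℤ) r ∧ LeadingAt L m r l ∧
      (fun Y : ℝ => W α m γ Y - (Real.log |l| - Complex.I * Real.pi * excess L m -
        r * (Real.log (Real.log Y) - Lam γ))) =O[atTop] (fun Y : ℝ => 1 / Real.log Y)) ∧
    (∀ (γ : ℝ) (r : ℤ), Real.pi / 2 < γ → (OrderAt L (m : ℤ) r ↔ BoundedLaw α m γ r)) ∧
    (∀ (γ : ℝ) (r : ℤ) (D : ℂ), Real.pi / 2 < γ → D ≠ 0 →
      ((∃ x : ℚ, x ≠ 0 ∧ LeadingAt L m r (x * D)) ↔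
        ∃ x : ℚ, x ≠ 0 ∧ Tendsto (fun Y : ℝ => (Real.log Y : ℂ) ^ r * Complex.exp (W α m γ Y)) atTop
          (𝓝 (Complex.exp (r * Lam γ) * (x * D))))) ∧
    ∀ (γ : ℝ) (r : ℤ), 0 ≤ γ → γ < Real.pi / 2 →
      (BoundedLaw α m γ r ↔ OrderAt L (m : ℤ) r ∧ ∀ x : ℝ, ((m : ℤ) : ℝ) < x → OrderAt L x 0) := by
  obtain ⟨hb, hr⟩ : HS.EX.Pure 1 α := HS.EX.pure_of_frobenius (X := C) (d := 1) (i := 1) (by norm_num)
    fun v => frob_of_curve (h v).1 (h v).2
  have E : Eul 1 (((1 : ℕ) : ℝ) / 2) (fun v : S => (Ideal.absNorm v.1.asIdeal : ℝ))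
      (fun v => Matrix.diagonal (α v)) := eul_alpha hb
  have hreal : ∀ (v : S) (k : ℕ), ((Matrix.diagonal (α v)) ^ k).trace.im = 0 := by
    intro v k
    rw [trace_diagonal_pow]
    exact hr v k
  have hmero : ∀ x ∈ Icc (m : ℝ) (1 + ((1 : ℕ) : ℝ) / 2), MeromorphicAt L (x : ℂ) :=
    fun x hx => hL.mero x ⟨hx.1, by have := hx.2; push_cast at this; linarith⟩
  have hprod : ∀ s : ℂ, 1 + ((1 : ℕ) : ℝ) / 2 < s.re → L s =
      ∏' v : S, ((1 - (((Ideal.absNorm v.1.asIdeal : ℝ) : ℂ)) ^ (-s) • Matrix.diagonal (α v)).det)⁻¹ := by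
    intro s hs
    push_cast at hs
    rw [hL.prod s (by linarith)]
    refine tprod_congr fun v => ?_
    rw [det_diagonal_sub, ← Finset.prod_inv_distrib]
    rfl
  have hcast : ((m : ℝ) : ℂ) = (m : ℂ) := by push_cast; rfl
  obtain ⟨h1, h2, h3, -⟩ := E.real hreal (m : ℝ) hmero hprod
  have hV : ∀ γ : ℝ, vot (fun v : S => (Ideal.absNorm v.1.asIdeal : ℝ))
      (fun v => Matrix.diagonal (α v)) m γ = V α m γ := by
    intro γ
    funext Y
    unfold vot V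
    refine tsum_congr fun x => ?_
    rw [rtm_eq hreal, term_eq]
  refine ⟨fun γ hγ => ?_, fun γ r hγ => ?_, fun γ r D hγ hD => ?_, fun γ r hγ hγ2 => ?_⟩
  · obtain ⟨r, l, h5, h6, h7, h8⟩ := h1 γ hγ
    rw [hcast] at h7
    refine ⟨r, l, h6, ⟨by exact_mod_cast h5, h7⟩, ?_⟩
    refine h8.congr_left fun Y => ?_
    rw [W_eq]
    show _ = W α m γ Y - (Real.log |l| - Complex.I * Real.pi * excessR L m -
        r * (Real.log (Real.log Y) - Pool.Agent.W187.UR.Lam γ))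
    ring
  · have h5 := h2 γ r hγ
    rw [hV] at h5
    exact h5.symm
  · have key : ∀ B : ℂ, B ≠ 0 → (LeadingAt L m r B ↔
        Tendsto (fun Y : ℝ => (Real.log Y : ℂ) ^ r * Complex.exp (W α m γ Y)) atTop
          (𝓝 (Complex.exp (r * Lam γ) * B))) := by
      intro B hB
      have h5 := (E.final' (m : ℝ) hmero hprod hγ).2.2.1 r B hB
      rw [hcast] at h5
      simp only [W_eq] at h5
      unfold LeadingAt
      constructor
      · exact fun h6 => h5.1 h6.2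
      · exact fun h6 => ⟨hB, h5.2 h6⟩
    refine exists_congr fun x => and_congr_right fun hx => key _ ?_
    exact mul_ne_zero (by exact_mod_cast hx) hD
  · have h5 := h3 γ r hγ hγ2
    rw [hV] at h5
    exact h5

/-- **`L^*(-1)` from the numbers of points of curves of genus one.** -/
theorem result (C : Set (MvPolynomial (Fin n) (𝓞 K))) (α : S → Fin 2 → ℂ)
    (h : ∀ v, IsFrobenius C v.1 (α v)) (L : ℂ → ℂ)
    (hL : IsLFunction α (-1) L) :
    (∀ γ : ℝ, Real.pi / 2 < γ → ∃ (r : ℤ) (l : ℝ), OrderAt L (-1 : ℤ) r ∧ LeadingAt L (-1) r l ∧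
      (fun Y : ℝ => W α (-1) γ Y - (Real.log |l| - Complex.I * Real.pi * excess L (-1) -
        r * (Real.log (Real.log Y) - Lam γ))) =O[atTop] (fun Y : ℝ => 1 / Real.log Y)) ∧
    (∀ (γ : ℝ) (r : ℤ), Real.pi / 2 < γ → (OrderAt L (-1 : ℤ) r ↔ BoundedLaw α (-1) γ r)) ∧
    (∀ (γ : ℝ) (r : ℤ) (D : ℂ), Real.pi / 2 < γ → D ≠ 0 →
      ((∃ x : ℚ, x ≠ 0 ∧ LeadingAt L (-1) r (x * D)) ↔
        ∃ x : ℚ, x ≠ 0 ∧ Tendsto (fun Y : ℝ => (Real.log Y : ℂ) ^ r * Complex.exp (W α (-1) γ Y)) atTop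
          (𝓝 (Complex.exp (r * Lam γ) * (x * D))))) ∧
    ∀ (γ : ℝ) (r : ℤ), 0 ≤ γ → γ < Real.pi / 2 →
      (BoundedLaw α (-1) γ r ↔ OrderAt L (-1 : ℤ) r ∧ ∀ x : ℝ, ((-1 : ℤ) : ℝ) < x → OrderAt L x 0) :=
  main C α h (-1) L hL

end Pool.Agent.Results.MP_4132b3_nt.DerivativeByPoints
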